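import Mathlib

/-!
# Joins with a single vertex of mobile general position number two

We prove that every finite graph `G` with clique number at least three satisfies
`mob (G ∨ K₁) ≥ 3`.  Hence there is no graph `G` with `ω(G) ≥ 3` and `mob (G ∨ K₁) = 2`.
-/

namespace Pool.Agent.Results.MP_73e407_co.CliqueThree

variable {V : Type*}

/-- `S` is a general position set of `G`: no three distinct vertices of `S` lie on a common
shortest path of `G`. (A walk `p` from `u` to `v` is a shortest path iff its length is the
distance of `u` and `v`.) -/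
def IsGeneralPosition (G : SimpleGraph V) (S : Finset V) : Prop :=
  ∀ (u v : V) (p : G.Walk u v), p.length = G.dist u v →
    ∀ x ∈ S, ∀ y ∈ S, ∀ z ∈ S, x ≠ y → y ≠ z → x ≠ z →
      ¬ (x ∈ p.support ∧ y ∈ p.support ∧ z ∈ p.support)

/-- `T` arises from `S` by a legal move: one robot moves from its vertex `u ∈ S` to an adjacent
unoccupied vertex `u'`, and the new set of occupied vertices is again in general position. -/
def LegalMove [DecidableEq V] (G : SimpleGraph V) (S T : Finset V) : Prop :=
  ∃ u ∈ S, ∃ u' ∉ S, G.Adj u u' ∧ T = insert u' (S.erase u) ∧ IsGeneralPosition G T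

/-- `S` is a mobile general position set of `G`: it is a general position set and there is a
finite sequence `S = S₀, S₁, …, Sₙ` of sets, each arising from the previous one by a legal move,
such that every vertex of `G` is in one of these sets. -/
def IsMobile [DecidableEq V] (G : SimpleGraph V) (S : Finset V) : Prop :=
  IsGeneralPosition G S ∧
    ∃ l : List (Finset V), List.IsChain (LegalMove G) (S :: l) ∧ ∀ v : V, ∃ T ∈ S :: l, v ∈ T

/-- The mobile general position number of a finite graph: the largest size of a mobile general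
position set. -/
noncomputable def mob [Fintype V] [DecidableEq V] (G : SimpleGraph V) : ℕ :=
  sSup {n | ∃ S : Finset V, IsMobile G S ∧ S.card = n}

/-- The join `G ∨ K₁`: one new vertex `none` adjacent to every vertex of `G`. -/
def joinK1 (G : SimpleGraph V) : SimpleGraph (Option V) where
  Adj
    | none, none => False
    | none, some _ => True
    | some _, none => True
    | some a, some b => G.Adj a b
  symm := ⟨by
    intro x y h
    cases x <;> cases y <;> simp_all [SimpleGraph.adj_comm]⟩
  loopless := ⟨by
    intro x h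
    cases x <;> simp_all⟩

section

variable (G : SimpleGraph V)

@[simp] theorem adj_none_some (a : V) : (joinK1 G).Adj none (some a) := trivial
@[simp] theorem adj_some_none (a : V) : (joinK1 G).Adj (some a) none := trivial
@[simp] theorem adj_some_some (a b : V) : (joinK1 G).Adj (some a) (some b) ↔ G.Adj a b := Iff.rfl

theorem dist_le_two (x y : Option V) : (joinK1 G).dist x y ≤ 2 := by
  cases x with
  | none =>
    cases y with
    | none => simp
    | some b =>
      have := SimpleGraph.dist_le (SimpleGraph.Walk.cons (adj_none_some G b) .nil)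
      simpa using this.trans (by simp)
  | some a =>
    cases y with
    | none =>
      have := SimpleGraph.dist_le (SimpleGraph.Walk.cons (adj_some_none G a) .nil)
      simpa using this.trans (by simp)
    | some b =>
      have := SimpleGraph.dist_le
        (SimpleGraph.Walk.cons (adj_some_none G a)
          (SimpleGraph.Walk.cons (adj_none_some G b) .nil))
      simpa using this

/-- A set without an induced path on three vertices is in general position in the join. -/
theorem generalPosition_of (S : Finset (Option V))
    (hS : ∀ x ∈ S, ∀ m ∈ S, ∀ y ∈ S, x ≠ y → (joinK1 G).Adj x m → (joinK1 G).Adj m y →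
      (joinK1 G).Adj x y) : IsGeneralPosition (joinK1 G) S := by
  intro u v p hp x hx y hy z hz hxy hyz hxz ⟨h1, h2, h3⟩
  have hlen : p.length ≤ 2 := hp ▸ dist_le_two G u v
  rcases p with _ | ⟨hum, _ | ⟨hmw, _ | ⟨hwx, q⟩⟩⟩
  · simp at h1 h2
    exact hxy (h1.trans h2.symm)
  · simp at h1 h2 h3
    rcases h1 with h1 | h1 <;> rcases h2 with h2 | h2 <;> rcases h3 with h3 | h3 <;>
      simp_all
  · rename_i m
    simp only [SimpleGraph.Walk.support_cons, SimpleGraph.Walk.support_nil, List.mem_cons,
      List.not_mem_nil, or_false] at h1 h2 h3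
    simp only [SimpleGraph.Walk.length_cons, SimpleGraph.Walk.length_nil] at hp
    have key : u ∈ S ∧ m ∈ S ∧ v ∈ S := by
      rcases h1 with h1 | h1 | h1 <;> rcases h2 with h2 | h2 | h2 <;>
        rcases h3 with h3 | h3 | h3 <;> subst h1 h2 h3 <;> simp_all
    have huv : u ≠ v := by
      rintro rfl
      simp at hp
    have hadj := hS u key.1 m key.2.1 v key.2.2 huv hum hmw
    have : (joinK1 G).dist u v = 1 := SimpleGraph.dist_eq_one_iff_adj.2 hadj
    omega
  · simp at hlen

end

/-- A sequence of steps from one element to another, with the list of elements met. -/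
inductive Tour {α : Type*} (r : α → α → Prop) : α → List α → α → Prop
  | nil (a : α) : Tour r a [] a
  | cons {a b c : α} {l : List α} (h : r a b) (t : Tour r b l c) : Tour r a (b :: l) c

theorem Tour.append {α : Type*} {r : α → α → Prop} {a b c : α} {l m : List α}
    (h : Tour r a l b) (h' : Tour r b m c) : Tour r a (l ++ m) c := by
  induction h with
  | nil a => exact h'
  | cons h t ih => exact Tour.cons h (ih h')

theorem Tour.isChain {α : Type*} {r : α → α → Prop} {a b : α} {l : List α}
    (h : Tour r a l b) : List.IsChain r (a :: l) := by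
  induction h with
  | nil a => simp
  | cons h t ih => exact List.IsChain.cons_cons h ih

theorem Tour.end_mem {α : Type*} {r : α → α → Prop} {a b : α} {l : List α}
    (h : Tour r a l b) : b ∈ a :: l := by
  induction h with
  | nil a => simp
  | cons h t ih => exact List.mem_cons_of_mem _ ih

theorem Tour.of_reflTransGen {α : Type*} {r : α → α → Prop} {a b : α}
    (h : Relation.ReflTransGen r a b) : ∃ l, Tour r a l b := by
  induction h using Relation.ReflTransGen.head_induction_on with
  | refl => exact ⟨[], Tour.nil _⟩
  | head h _ ih =>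
    obtain ⟨l, hl⟩ := ih
    exact ⟨_, Tour.cons h hl⟩

theorem tour_all {W α : Type*} [Fintype W] {r : α → α → Prop} (mem : W → α → Prop) (S : α)
    (h : ∀ v : W, ∃ T, Relation.ReflTransGen r S T ∧ Relation.ReflTransGen r T S ∧ mem v T) :
    ∃ l : List α, List.IsChain r (S :: l) ∧ ∀ v : W, ∃ T ∈ S :: l, mem v T := by
  classical
  have key : ∀ s : Finset W, ∃ l : List α, Tour r S l S ∧ ∀ v ∈ s, ∃ T ∈ S :: l, mem v T := by
    intro s
    induction s using Finset.induction_on with
    | empty => exact ⟨[], Tour.nil _, by simp⟩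
    | insert v s hv ih =>
      obtain ⟨l, hl, hl'⟩ := ih
      obtain ⟨T, h1, h2, h3⟩ := h v
      obtain ⟨l1, hl1⟩ := Tour.of_reflTransGen h1
      obtain ⟨l2, hl2⟩ := Tour.of_reflTransGen h2
      refine ⟨(l1 ++ l2) ++ l, (hl1.append hl2).append hl, ?_⟩
      intro w hw
      rw [Finset.mem_insert] at hw
      rcases hw with rfl | hw
      · refine ⟨T, ?_, h3⟩
        have := hl1.end_mem
        simp only [List.mem_cons, List.mem_append] at this ⊢
        tauto
      · obtain ⟨T', hT', h4⟩ := hl' w hw
        refine ⟨T', ?_, h4⟩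
        simp only [List.mem_cons, List.mem_append] at hT' ⊢
        tauto
  obtain ⟨l, hl, hl'⟩ := key Finset.univ
  exact ⟨l, hl.isChain, fun v => hl' v (Finset.mem_univ v)⟩

section

variable [DecidableEq V] {G : SimpleGraph V}

theorem LegalMove.symm' {S T : Finset V} (h : LegalMove G S T) (hS : IsGeneralPosition G S) :
    LegalMove G T S := by
  obtain ⟨u, hu, u', hu', hadj, rfl, hT⟩ := h
  have hne : u ≠ u' := fun h => hu' (h ▸ hu)
  refine ⟨u', by simp, u, by simp [hne], hadj.symm, ?_, hS⟩
  ext x
  simp only [Finset.mem_insert, Finset.mem_erase]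
  constructor
  · intro hx
    by_cases hxu : x = u
    · exact Or.inl hxu
    · refine Or.inr ⟨?_, Or.inr ⟨hxu, hx⟩⟩
      rintro rfl
      exact hu' hx
  · rintro (rfl | ⟨h1, h2 | h2⟩)
    · exact hu
    · exact absurd h2 h1
    · exact h2.2

/-- The configuration with one robot at the new vertex and two at the ends of an edge. -/
def A (x y : V) : Finset (Option V) := {none, some x, some y}

/-- The configuration with the robots at `z`, `x`, `y`. -/
def B (z x y : V) : Finset (Option V) := {some z, some x, some y}

theorem A_gp {x y : V} (h : G.Adj x y) : IsGeneralPosition (joinK1 G) (A x y) := by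
  apply generalPosition_of
  intro a ha m hm b hb hab h1 h2
  simp only [A, Finset.mem_insert, Finset.mem_singleton] at ha hm hb
  rcases ha with rfl | rfl | rfl <;> rcases hb with rfl | rfl | rfl <;>
    simp_all [SimpleGraph.adj_comm]

theorem B_gp {z x y : V} (h : G.Adj x y) (hz : G.Adj z x ↔ G.Adj z y) :
    IsGeneralPosition (joinK1 G) (B z x y) := by
  have h' := h.symm
  have hz' : G.Adj x z ↔ G.Adj y z := by rw [G.adj_comm x z, G.adj_comm y z]; exact hz
  have e1 := G.adj_comm z x
  have e2 := G.adj_comm z y
  apply generalPosition_of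
  intro a ha m hm b hb hab h1 h2
  simp only [B, Finset.mem_insert, Finset.mem_singleton] at ha hm hb
  rcases ha with rfl | rfl | rfl <;> rcases hm with rfl | rfl | rfl <;>
    rcases hb with rfl | rfl | rfl <;> simp only [adj_some_some, ne_eq, not_true_eq_false,
      SimpleGraph.irrefl] at * <;> tauto

theorem move_AB {z x y : V} (h : G.Adj x y) (hz : G.Adj z x ↔ G.Adj z y) (hzx : z ≠ x)
    (hzy : z ≠ y) : LegalMove (joinK1 G) (A x y) (B z x y) := by
  refine ⟨none, by simp [A], some z, by simp [A, hzx, hzy], trivial, ?_, B_gp h hz⟩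
  ext w
  simp only [A, B, Finset.mem_insert, Finset.mem_erase, Finset.mem_singleton]
  constructor
  · rintro (rfl | rfl | rfl) <;> simp
  · rintro (rfl | ⟨h1, h2 | h2⟩)
    · simp
    · exact absurd h2 h1
    · exact Or.inr h2

theorem move_AA {x y w : V} (h1 : G.Adj w y) (h2 : G.Adj x w) (hxy : x ≠ y) :
    LegalMove (joinK1 G) (A x y) (A w y) := by
  refine ⟨some x, by simp [A], some w, by simp [A, h1.ne, h2.ne'], h2, ?_, A_gp h1⟩
  ext v
  simp only [A, Finset.mem_insert, Finset.mem_erase, Finset.mem_singleton]
  constructor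
  · rintro (rfl | rfl | rfl)
    · simp
    · simp
    · simp [hxy.symm]
  · rintro (rfl | ⟨h3, h4 | h4 | h4⟩)
    · simp
    · exact Or.inl h4
    · exact absurd h4 h3
    · exact Or.inr (Or.inr h4)

theorem A_comm (x y : V) : A x y = A y x := by
  unfold A
  rw [Finset.pair_comm]

open Relation in
theorem isMobile_of_triangle [Fintype V] {a b c : V} (hab : G.Adj a b) (hac : G.Adj a c)
    (hbc : G.Adj b c) : IsMobile (joinK1 G) (A a b) := by
  refine ⟨A_gp hab, tour_all (fun v T => v ∈ T) _ ?_⟩
  -- the pairs of the triangle are linked in both directions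
  have link : ∀ x y w : V, G.Adj x y → G.Adj w y → G.Adj x w →
      LegalMove (joinK1 G) (A x y) (A w y) ∧ LegalMove (joinK1 G) (A w y) (A x y) :=
    fun x y w h1 h2 h3 => ⟨move_AA h2 h3 h1.ne, move_AA h1 h3.symm h2.ne⟩
  have l1 := link a b c hab hbc.symm hac
  have l2 := link b a c hab.symm hac.symm hbc
  rw [A_comm b a] at l2
  have visit : ∀ x y z : V, G.Adj x y → (G.Adj z x ↔ G.Adj z y) → z ≠ x → z ≠ y →
      ReflTransGen (LegalMove (joinK1 G)) (A a b) (A x y) →
      ReflTransGen (LegalMove (joinK1 G)) (A x y) (A a b) →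
      ∃ T, ReflTransGen (LegalMove (joinK1 G)) (A a b) T ∧
        ReflTransGen (LegalMove (joinK1 G)) T (A a b) ∧ some z ∈ T := by
    intro x y z hxy hz hzx hzy h1 h2
    have hm := move_AB hxy hz hzx hzy
    exact ⟨B z x y, h1.tail hm, ReflTransGen.head (hm.symm' (A_gp hxy)) h2, by simp [B]⟩
  intro v
  cases v with
  | none => exact ⟨A a b, ReflTransGen.refl, ReflTransGen.refl, by simp [A]⟩
  | some z =>
    by_cases hza : z = a
    · exact ⟨A a b, ReflTransGen.refl, ReflTransGen.refl, by simp [A, hza]⟩
    by_cases hzb : z = b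
    · exact ⟨A a b, ReflTransGen.refl, ReflTransGen.refl, by simp [A, hzb]⟩
    by_cases hzc : z = c
    · exact ⟨A c b, ReflTransGen.single l1.1, ReflTransGen.single l1.2, by simp [A, hzc]⟩
    by_cases h1 : G.Adj z a ↔ G.Adj z b
    · exact visit a b z hab h1 hza hzb ReflTransGen.refl ReflTransGen.refl
    by_cases h2 : G.Adj z c ↔ G.Adj z b
    · exact visit c b z hbc.symm h2 hzc hzb (ReflTransGen.single l1.1)
        (ReflTransGen.single l1.2)
    · have h3 : G.Adj z c ↔ G.Adj z a := by tauto
      exact visit c a z hac.symm h3 hzc hza (ReflTransGen.single l2.1)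
        (ReflTransGen.single l2.2)

end

/-- **Main result.** Every finite graph `G` with clique number at least three satisfies
`mob (G ∨ K₁) ≥ 3`. -/
theorem result (V : Type*) [Fintype V] [DecidableEq V] (G : SimpleGraph V)
    (hG : 3 ≤ G.cliqueNum) : 3 ≤ mob (joinK1 G) := by
  obtain ⟨s, hs⟩ := G.exists_isNClique_cliqueNum
  obtain ⟨t, hts, ht⟩ := Finset.exists_subset_card_eq (hs.card_eq ▸ hG)
  have ht3 : G.IsNClique 3 t := ⟨hs.isClique.subset hts, ht⟩
  obtain ⟨a, b, c, hab, hac, hbc, -⟩ := SimpleGraph.is3Clique_iff.1 ht3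
  have hm : IsMobile (joinK1 G) (A a b) := isMobile_of_triangle hab hac hbc
  have hcard : (A a b).card = 3 := by
    unfold A
    rw [Finset.card_insert_of_notMem (by simp), Finset.card_insert_of_notMem
      (by simp [hab.ne]), Finset.card_singleton]
  refine le_csSup ⟨Fintype.card (Option V), ?_⟩ ⟨A a b, hm, hcard⟩
  rintro n ⟨S, -, rfl⟩
  exact Finset.card_le_univ S

end Pool.Agent.Results.MP_73e407_co.CliqueThree
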